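import Pool.Agent.PFB.StmtsG

set_option autoImplicit false

open Matrix Filter Topology

namespace Pool.Agent.PFB.H17

open Pool.Agent.PFS

/-- operator bound in coordinates -/
theorem lin_bound {d : ℕ} {W : Type} [SeminormedAddCommGroup W] [NormedSpace ℝ W]
    (E : V d →ₗ[ℝ] W) (x : V d) :
    ‖E x‖ ≤ (∑ i : Fin d, ‖E (fun j => if i = j then 1 else 0)‖) * ‖x‖ := by
  rw [LinearMap.pi_apply_eq_sum_univ E x, Finset.sum_mul]
  refine (norm_sum_le _ _).trans (Finset.sum_le_sum ?_)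
  intro i _
  rw [norm_smul, mul_comm]
  exact mul_le_mul_of_nonneg_left (norm_le_pi_norm x i) (norm_nonneg _)

theorem key {d : ℕ} {F : Set (V d)} (hF : PCone F) (L : V d →ₗ[ℝ] V d) (ψ : V d →ₗ[ℝ] ℝ) (b : V d)
    (hL : ∀ x ∈ closure F, L x ∈ closure F) (hb : b ∈ closure F) (hψb : 0 < ψ b)
    (P ε : ℝ) (hP : ∀ x, |ψ x| ≤ P * ‖x‖) (hP0 : 0 ≤ P) (hε0 : 0 ≤ ε)
    (hE : ∀ x, ‖L x - ψ x • b‖ ≤ ε * ‖x‖)
    (h1 : P * (ε * (‖b‖ + 1)) ≤ (ψ b) ^ 2 / 2)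
    (h2 : (ψ b + P * ‖b‖) * (ε * (‖b‖ + 1)) / ((ψ b) ^ 2 / 2) ≤ 1)
    (h3 : (ψ b + P * ‖b‖) * ε / ((ψ b) ^ 2 / 2) +
      (ψ b + P * ‖b‖) * (ε * (‖b‖ + 1)) * (P * ε) / ((ψ b) ^ 2 / 2 * ((ψ b) ^ 2 / 2)) ≤ 1 / 2) :
    ∃ (x : V d) (κ : ℝ), x ∈ closure F ∧ L x = κ • x ∧
      ‖x - b‖ ≤ (ψ b + P * ‖b‖) * (ε * (‖b‖ + 1)) / ((ψ b) ^ 2 / 2) ∧
      |κ - ψ b| ≤ P * (ε * (‖b‖ + 1)) / ψ b := by
  set β : ℝ := ψ b with hβ
  set R : ℝ := ‖b‖ + 1 with hR
  set C1 : ℝ := β + P * ‖b‖ with hC1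
  have hβ2 : (0 : ℝ) < β ^ 2 / 2 := by positivity
  have hR0 : 0 < R := by positivity
  have hC10 : 0 < C1 := by positivity
  let E : V d → V d := fun x => L x - ψ x • b
  have hEsub : ∀ x y, E x - E y = E (x - y) := by
    intro x y
    simp only [E, map_sub, sub_smul]
    abel
  let S : Set (V d) := {x | x ∈ closure F ∧ ψ x = β ∧ ‖x - b‖ ≤ 1}
  have hψc : Continuous ψ := LinearMap.continuous_of_finiteDimensional ψ
  have hSclosed : IsClosed S := by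
    have e1 : IsClosed {x : V d | ψ x = β} := isClosed_eq hψc continuous_const
    have e2 : IsClosed {x : V d | ‖x - b‖ ≤ 1} :=
      isClosed_le (continuous_id.sub continuous_const).norm continuous_const
    exact isClosed_closure.inter (e1.inter e2)
  have hSR : ∀ x ∈ S, ‖x‖ ≤ R := by
    intro x hx
    have e1 : ‖x‖ ≤ ‖x - b‖ + ‖b‖ := by
      have := norm_add_le (x - b) b
      rwa [sub_add_cancel] at this
    have e2 := hx.2.2
    rw [hR]
    linarith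
  have hES : ∀ x ∈ S, ‖E x‖ ≤ ε * R := fun x hx =>
    (hE x).trans (mul_le_mul_of_nonneg_left (hSR x hx) hε0)
  have hbS : b ∈ S := ⟨hb, rfl, by simp⟩
  have hLx : ∀ x ∈ S, L x = β • b + E x := by
    intro x hx
    simp only [E]
    rw [hx.2.1]
    abel
  have hψL : ∀ x ∈ S, ψ (L x) = β ^ 2 + ψ (E x) := by
    intro x hx
    rw [hLx x hx, map_add, map_smul, smul_eq_mul]
    rw [← hβ]
    ring
  have hψE : ∀ x ∈ S, |ψ (E x)| ≤ P * (ε * R) := fun x hx =>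
    (hP _).trans (mul_le_mul_of_nonneg_left (hES x hx) hP0)
  have hD : ∀ x ∈ S, β ^ 2 / 2 ≤ ψ (L x) := by
    intro x hx
    rw [hψL x hx]
    have e1 := (abs_le.1 (hψE x hx)).1
    linarith
  let f : V d → V d := fun x => (β / ψ (L x)) • L x
  have hfb : ∀ x ∈ S, f x - b = (ψ (L x))⁻¹ • (β • E x - ψ (E x) • b) := by
    intro x hx
    have hD0 : ψ (L x) ≠ 0 := (lt_of_lt_of_le hβ2 (hD x hx)).ne'
    have e1 := hψL x hx
    have e2 := hLx x hx
    simp only [f]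
    generalize hDD : ψ (L x) = D at *
    rw [e2]
    ext i
    simp only [Pi.sub_apply, Pi.smul_apply, Pi.add_apply, smul_eq_mul]
    field_simp
    rw [e1]
    ring
  have hNb : ∀ z : V d, ‖β • z - ψ z • b‖ ≤ C1 * ‖z‖ := by
    intro z
    have e1 : ‖β • z - ψ z • b‖ ≤ ‖β • z‖ + ‖ψ z • b‖ := norm_sub_le _ _
    rw [norm_smul, norm_smul, Real.norm_eq_abs, Real.norm_eq_abs, abs_of_pos hψb] at e1
    have e2 : |ψ z| * ‖b‖ ≤ P * ‖z‖ * ‖b‖ := mul_le_mul_of_nonneg_right (hP z) (norm_nonneg _)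
    rw [hC1]
    nlinarith [e1, e2]
  have hfbn : ∀ x ∈ S, ‖f x - b‖ ≤ C1 * (ε * R) / (β ^ 2 / 2) := by
    intro x hx
    have hDp : 0 < ψ (L x) := lt_of_lt_of_le hβ2 (hD x hx)
    rw [hfb x hx, norm_smul, norm_inv, Real.norm_eq_abs, abs_of_pos hDp, ← div_eq_inv_mul]
    refine div_le_div₀ (by positivity) ?_ hβ2 (hD x hx)
    exact (hNb _).trans (mul_le_mul_of_nonneg_left (hES x hx) hC10.le)
  have hmaps : Set.MapsTo f S S := by
    intro x hx
    have hDp : 0 < ψ (L x) := lt_of_lt_of_le hβ2 (hD x hx)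
    refine ⟨?_, ?_, (hfbn x hx).trans h2⟩
    · exact hF.cl_smul (hL x hx.1) (by positivity)
    · simp only [f]
      rw [map_smul, smul_eq_mul, div_mul_cancel₀ _ hDp.ne']
  have hlip : ∀ x ∈ S, ∀ y ∈ S, ‖f x - f y‖ ≤ 1 / 2 * ‖x - y‖ := by
    intro x hx y hy
    have hDx : 0 < ψ (L x) := lt_of_lt_of_le hβ2 (hD x hx)
    have hDy : 0 < ψ (L y) := lt_of_lt_of_le hβ2 (hD y hy)
    have e0 : f x - f y = (f x - b) - (f y - b) := by abel
    have e1 : f x - f y = (ψ (L x))⁻¹ • (β • E (x - y) - ψ (E (x - y)) • b) -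
        (ψ (E (x - y)) * ((ψ (L x))⁻¹ * (ψ (L y))⁻¹)) • (β • E y - ψ (E y) • b) := by
      rw [e0, hfb x hx, hfb y hy, ← hEsub x y]
      have e2 : ψ (E x - E y) = ψ (L x) - ψ (L y) := by
        rw [map_sub, hψL x hx, hψL y hy]
        ring
      have e3 : ψ (E x - E y) * ((ψ (L x))⁻¹ * (ψ (L y))⁻¹) = (ψ (L y))⁻¹ - (ψ (L x))⁻¹ := by
        rw [e2]
        field_simp
      have e4 : ψ (E x - E y) = ψ (E x) - ψ (E y) := map_sub ψ (E x) (E y)
      rw [e3, e4]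
      ext i
      simp only [Pi.sub_apply, Pi.smul_apply, smul_eq_mul]
      ring
    rw [e1]
    have hEn : ‖E (x - y)‖ ≤ ε * ‖x - y‖ := hE _
    have n1 : ‖(ψ (L x))⁻¹ • (β • E (x - y) - ψ (E (x - y)) • b)‖ ≤
        C1 * (ε * ‖x - y‖) / (β ^ 2 / 2) := by
      rw [norm_smul, norm_inv, Real.norm_eq_abs, abs_of_pos hDx, ← div_eq_inv_mul]
      refine div_le_div₀ (by positivity) ?_ hβ2 (hD x hx)
      exact (hNb _).trans (mul_le_mul_of_nonneg_left hEn hC10.le)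
    have n2 : ‖(ψ (E (x - y)) * ((ψ (L x))⁻¹ * (ψ (L y))⁻¹)) • (β • E y - ψ (E y) • b)‖ ≤
        C1 * (ε * R) * (P * (ε * ‖x - y‖)) / (β ^ 2 / 2 * (β ^ 2 / 2)) := by
      rw [norm_smul, norm_mul, norm_mul, norm_inv, norm_inv, Real.norm_eq_abs, Real.norm_eq_abs,
        Real.norm_eq_abs, abs_of_pos hDx, abs_of_pos hDy, ← mul_inv]
      have m1 : |ψ (E (x - y))| ≤ P * (ε * ‖x - y‖) :=
        (hP _).trans (mul_le_mul_of_nonneg_left hEn hP0)
      have m2 : ‖β • E y - ψ (E y) • b‖ ≤ C1 * (ε * R) :=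
        (hNb _).trans (mul_le_mul_of_nonneg_left (hES y hy) hC10.le)
      have m3 : β ^ 2 / 2 * (β ^ 2 / 2) ≤ ψ (L x) * ψ (L y) :=
        mul_le_mul (hD x hx) (hD y hy) hβ2.le hDx.le
      have e4 : |ψ (E (x - y))| * (ψ (L x) * ψ (L y))⁻¹ * ‖β • E y - ψ (E y) • b‖ =
          (‖β • E y - ψ (E y) • b‖ * |ψ (E (x - y))|) / (ψ (L x) * ψ (L y)) := by
        rw [div_eq_mul_inv]
        ring
      rw [e4]
      refine div_le_div₀ (by positivity) ?_ (by positivity) m3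
      exact mul_le_mul m2 m1 (abs_nonneg _) (by positivity)
    refine (norm_sub_le _ _).trans ((add_le_add n1 n2).trans ?_)
    have e5 : C1 * (ε * ‖x - y‖) / (β ^ 2 / 2) +
        C1 * (ε * R) * (P * (ε * ‖x - y‖)) / (β ^ 2 / 2 * (β ^ 2 / 2)) =
        (C1 * ε / (β ^ 2 / 2) + C1 * (ε * R) * (P * ε) / (β ^ 2 / 2 * (β ^ 2 / 2))) * ‖x - y‖ := by
      ring
    rw [e5]
    exact mul_le_mul_of_nonneg_right h3 (norm_nonneg _)
  have hcontr : ContractingWith (1 / 2 : NNReal) (hmaps.restrict f S S) := by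
    refine ⟨by norm_num, ?_⟩
    refine LipschitzWith.of_dist_le_mul ?_
    rintro ⟨x, hx⟩ ⟨y, hy⟩
    have := hlip x hx y hy
    rw [Subtype.dist_eq, Subtype.dist_eq, dist_eq_norm, dist_eq_norm]
    simpa using this
  obtain ⟨x, hxS, hfix, -⟩ := hcontr.exists_fixedPoint' hSclosed.isComplete hmaps hbS
    (edist_ne_top _ _)
  have hfx : f x = x := hfix
  have hDp : 0 < ψ (L x) := lt_of_lt_of_le hβ2 (hD x hxS)
  refine ⟨x, ψ (L x) / β, hxS.1, ?_, ?_, ?_⟩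
  · nth_rw 3 [← hfx]
    simp only [f]
    rw [smul_smul, div_mul_div_comm, mul_comm (ψ (L x)) β, div_self (by positivity), one_smul]
  · nth_rw 1 [← hfx]
    exact hfbn x hxS
  · have e1 : ψ (L x) / β - β = ψ (E x) / β := by
      rw [hψL x hxS]
      field_simp
      ring
    rw [e1, abs_div, abs_of_pos hψb]
    exact div_le_div_of_nonneg_right (hψE x hxS) hψb.le

theorem ctr : CtrStmt := by
  classical
  intro d F hF L ψ b hL hb hψb _ hlim
  set P : ℝ := ∑ i : Fin d, ‖ψ (fun j => if i = j then 1 else 0)‖ with hPdef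
  have hP0 : 0 ≤ P := Finset.sum_nonneg fun i _ => norm_nonneg _
  have hP : ∀ x, |ψ x| ≤ P * ‖x‖ := fun x => lin_bound ψ x
  let E : ℕ → (V d →ₗ[ℝ] V d) := fun m => L m - ψ.smulRight b
  have hEa : ∀ m x, E m x = L m x - ψ x • b := fun m x => rfl
  let ε : ℕ → ℝ := fun m => ∑ i : Fin d, ‖E m (fun j => if i = j then 1 else 0)‖
  have hε0 : ∀ m, 0 ≤ ε m := fun m => Finset.sum_nonneg fun i _ => norm_nonneg _
  have hE : ∀ m x, ‖L m x - ψ x • b‖ ≤ ε m * ‖x‖ := by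
    intro m x
    rw [← hEa]
    exact lin_bound (E m) x
  have hεlim : Tendsto ε atTop (𝓝 0) := by
    have e1 : Tendsto ε atTop (𝓝 (∑ i : Fin d, (0 : ℝ))) := by
      refine tendsto_finsetSum _ ?_
      intro i _
      have e2 := (hlim (fun j => if i = j then 1 else 0)).sub
        (tendsto_const_nhds (x := ψ (fun j => if i = j then 1 else 0) • b))
      rw [sub_self] at e2
      have e3 := e2.norm
      rw [norm_zero] at e3
      exact e3
    simpa using e1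
  set R : ℝ := ‖b‖ + 1 with hR
  set C1 : ℝ := ψ b + P * ‖b‖ with hC1
  have hβ2 : (0 : ℝ) < (ψ b) ^ 2 / 2 := by positivity
  have t1 : Tendsto (fun m => P * (ε m * R)) atTop (𝓝 0) := by
    have := (hεlim.mul_const R).const_mul P
    simpa using this
  have t2 : Tendsto (fun m => C1 * (ε m * R) / ((ψ b) ^ 2 / 2)) atTop (𝓝 0) := by
    have := ((hεlim.mul_const R).const_mul C1).div_const ((ψ b) ^ 2 / 2)
    simpa using this
  have t3 : Tendsto (fun m => C1 * ε m / ((ψ b) ^ 2 / 2) +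
      C1 * (ε m * R) * (P * ε m) / ((ψ b) ^ 2 / 2 * ((ψ b) ^ 2 / 2))) atTop (𝓝 0) := by
    have a1 := (hεlim.const_mul C1).div_const ((ψ b) ^ 2 / 2)
    have a2 := (((hεlim.mul_const R).const_mul C1).mul (hεlim.const_mul P)).div_const
      ((ψ b) ^ 2 / 2 * ((ψ b) ^ 2 / 2))
    have := a1.add a2
    simpa using this
  have ev : ∀ᶠ m in atTop, ∃ xk : V d × ℝ, xk.1 ∈ closure F ∧ L m xk.1 = xk.2 • xk.1 ∧
      ‖xk.1 - b‖ ≤ C1 * (ε m * R) / ((ψ b) ^ 2 / 2) ∧ |xk.2 - ψ b| ≤ P * (ε m * R) / ψ b := by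
    filter_upwards [t1.eventually (ge_mem_nhds hβ2), t2.eventually (ge_mem_nhds one_pos),
      t3.eventually (ge_mem_nhds (by norm_num : (0 : ℝ) < 1 / 2))] with m h1 h2 h3
    obtain ⟨x, κ, hx⟩ := key hF (L m) ψ b (hL m) hb hψb P (ε m) hP hP0 (hε0 m) (hE m) h1 h2 h3
    exact ⟨(x, κ), hx⟩
  let g : ℕ → V d × ℝ := fun m =>
    if h : ∃ xk : V d × ℝ, xk.1 ∈ closure F ∧ L m xk.1 = xk.2 • xk.1 ∧
      ‖xk.1 - b‖ ≤ C1 * (ε m * R) / ((ψ b) ^ 2 / 2) ∧ |xk.2 - ψ b| ≤ P * (ε m * R) / ψ b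
    then h.choose else (b, ψ b)
  have hg : ∀ᶠ m in atTop, (g m).1 ∈ closure F ∧ L m (g m).1 = (g m).2 • (g m).1 ∧
      ‖(g m).1 - b‖ ≤ C1 * (ε m * R) / ((ψ b) ^ 2 / 2) ∧
      |(g m).2 - ψ b| ≤ P * (ε m * R) / ψ b := by
    filter_upwards [ev] with m hm
    have : g m = hm.choose := dif_pos hm
    rw [this]
    exact hm.choose_spec
  refine ⟨fun m => (g m).1, fun m => (g m).2, hg.mono fun m hm => ⟨hm.1, hm.2.1⟩, ?_, ?_⟩
  · rw [tendsto_iff_norm_sub_tendsto_zero]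
    refine squeeze_zero' (Eventually.of_forall fun m => norm_nonneg _)
      (hg.mono fun m hm => hm.2.2.1) t2
  · rw [tendsto_iff_norm_sub_tendsto_zero]
    have t4 : Tendsto (fun m => P * (ε m * R) / ψ b) atTop (𝓝 0) := by
      have := t1.div_const (ψ b)
      simpa using this
    refine squeeze_zero' (Eventually.of_forall fun m => norm_nonneg _)
      (hg.mono fun m hm => ?_) t4
    rw [Real.norm_eq_abs]
    exact hm.2.2.2

end Pool.Agent.PFB.H17
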